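import Pool.Agent.Lib.MP_28492a_gt.Bodies

set_option autoImplicit false

namespace Pool.Agent.Results.MP_28492a_gt.CancellationLaw

open Pool.Agent.Lib.MP_28492a_gt

/-- The cancellation law for equidecomposability as geometric bodies holds in `ℝⁿ` for every
`n ≥ 1`: if `A`, `B` are bounded regular-open Jordan measurable sets, `k ≥ 1`, `C` is the join of
`k` pairwise disjoint isometric copies of `A`, `D` is the join of `k` pairwise disjoint isometric
copies of `B`, and `C`, `D` are equidecomposable as geometric bodies, then so are `A`, `B`. -/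
theorem result (n : ℕ) (hn : 1 ≤ n) (k : ℕ) (hk : 1 ≤ k)
    (A B : Set (EuclideanSpace ℝ (Fin n))) (hA : IsBody A) (hB : IsBody B)
    (C D : Set (EuclideanSpace ℝ (Fin n))) (hC : IsMultiple k A C) (hD : IsMultiple k B D)
    (h : Equidec C D) : Equidec A B :=
  cancellationLaw hn k hk A B hA hB C D hC hD h

end Pool.Agent.Results.MP_28492a_gt.CancellationLaw
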